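import Pool.Agent.Lib.MP_7ed551_gt.Cy.P.Disc
import Pool.Agent.Lib.MP_ccffa6_gt.T.Base0

/-! Uniform control of a leaf at infinity. -/

open scoped ContDiff Topology
open Set Filter Metric Complex

noncomputable section

namespace Pool.Agent.Lib.MP_7ed551_gt.Cy

open Pool.Agent.Lib.MP_ccffa6_gt (px py JHol)

variable {J : E → E →L[ℝ] E} {u : ℂ → E} {c : ℂ} {R : ℝ}

theorem Leaf.hasDer (h : Leaf J u c) {ζ : ℂ} (hJ : J (u ζ) = J0) :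
    HasDerivAt u (px u ζ) ζ :=
  MP_ccffa6_gt.differentiableAt_of_cr (h.sm.differentiable (by simp) ζ)
    (by rw [(h.hol ζ trivial).1, hJ]; rfl)

theorem Leaf.eq_of_std (h : Leaf J u c) (hJ : ∀ ζ, J (u ζ) = J0) (ζ : ℂ) : u ζ = (ζ, c) := by
  have h1 : Differentiable ℂ fun ζ => u ζ - (ζ, c) := fun ζ =>
    (h.hasDer (hJ ζ)).differentiableAt.sub (by fun_prop)
  exact sub_eq_zero.1 (h1.apply_eq_of_tendsto_cocompact ζ h.lim)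

theorem Leaf.lim_fst (h : Leaf J u c) : Tendsto (fun ζ => (u ζ).1 - ζ) (cocompact ℂ) (𝓝 0) :=
  (continuous_fst.tendsto (0 : E)).comp h.lim

theorem Leaf.lim_snd (h : Leaf J u c) : Tendsto (fun ζ => (u ζ).2) (cocompact ℂ) (𝓝 c) :=
  tendsto_sub_nhds_zero_iff.1 ((continuous_snd.tendsto (0 : E)).comp h.lim)

theorem Leaf.hol_fst (h : Leaf J u c) (hJ : ∀ x, R < ‖x‖ → J x = J0) :
    DifferentiableOn ℂ (fun ζ => (u ζ).1) {ζ | R < ‖(u ζ).1‖} := fun _ hζ =>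
  (h.hasDer (hJ _ (lt_of_lt_of_le hζ (norm_fst_le _)))).differentiableAt.fst.differentiableWithinAt

theorem Leaf.hol_snd (h : Leaf J u c) (hJ : ∀ x, R < ‖x‖ → J x = J0) :
    DifferentiableOn ℂ (fun ζ => (u ζ).2) {ζ | R < ‖(u ζ).2‖} := fun _ hζ =>
  (h.hasDer (hJ _ (lt_of_lt_of_le hζ (norm_snd_le _)))).differentiableAt.snd.differentiableWithinAt

theorem Leaf.triv (h : Leaf J u c) (hJ : ∀ x, R < ‖x‖ → J x = J0) (hc : R < ‖c‖) (ζ : ℂ) :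
    u ζ = (ζ, c) := by
  have h1 := ext_const h.sm.continuous.snd (h.hol_snd hJ) h.lim_snd hc
  exact h.eq_of_std (fun ζ => hJ _ (hc.trans_le (h1 ζ ▸ norm_snd_le (u ζ)))) ζ

theorem Leaf.tail (h : Leaf J u c) (hR : 0 < R) (hJ : ∀ x, R < ‖x‖ → J x = J0) :
    (∀ ζ, 2 * R < ‖ζ‖ → R < ‖(u ζ).1‖) ∧ (∀ ζ, ‖u ζ - (ζ, c)‖ ≤ 6 * R + 2 * ‖c‖) ∧
    (∀ ζ, 2 * R ≤ ‖ζ‖ → ‖u ζ - (ζ, c)‖ ≤ (6 * R + 2 * ‖c‖) * (2 * R) / ‖ζ‖) ∧
    ∀ ζ, 4 * R < ‖ζ‖ → ‖fderiv ℝ u ζ - ContinuousLinearMap.inl ℝ ℂ ℂ‖ ≤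
      4 * ((6 * R + 2 * ‖c‖) * (2 * R)) / ‖ζ‖ ^ 2 := by
  have cu := h.sm.continuous
  obtain ⟨h1, h2⟩ := ext_disc hR cu.fst (h.hol_fst hJ) h.lim_fst
  have h3 := ext_max cu.snd (h.hol_snd hJ) h.lim_snd
  have hc := norm_nonneg c
  have h4 : ∀ ζ, ‖ζ‖ ≤ 2 * R → ‖u ζ - (ζ, c)‖ ≤ 6 * R + 2 * ‖c‖ := fun ζ hζ => by
    have a1 := norm_sub_le (u ζ).1 ζ
    have a2 := norm_sub_le (u ζ).2 c
    have a3 := h2 ζ hζ
    have a4 := (h3 ζ).trans (max_le_add_of_nonneg hR.le hc)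
    exact max_le (a1.trans (by linarith)) (a2.trans (by linarith))
  have h5 : ∀ ζ, 2 * R < ‖ζ‖ → HasDerivAt (fun ζ => u ζ - (ζ, c)) (px u ζ - (1, 0)) ζ :=
    fun ζ hζ => (h.hasDer (hJ _ ((h1 ζ hζ).trans_le (norm_fst_le _)))).sub
      ((hasDerivAt_id ζ).prodMk (hasDerivAt_const ζ c))
  have h6 : DifferentiableOn ℂ (fun ζ => u ζ - (ζ, c)) {w | 2 * R < ‖w‖} := fun ζ hζ =>
    (h5 ζ hζ).differentiableAt.differentiableWithinAt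
  have hR2 : 0 < 2 * R := by positivity
  have h7 : ∀ ζ, 2 * R ≤ ‖ζ‖ → ‖u ζ - (ζ, c)‖ ≤ (6 * R + 2 * ‖c‖) * (2 * R) / ‖ζ‖ := fun ζ hζ =>
    ext_schwarz hR2 h6 (by fun_prop) (fun w hw => h4 w hw.le) h.lim hζ
  refine ⟨h1, fun ζ => (le_total _ _).elim (h4 ζ) fun hζ => (h7 ζ hζ).trans ?_, h7,
    fun ζ hζ => ?_⟩
  · rw [div_le_iff₀ (hR2.trans_le hζ)]
    gcongr
  · have a1 := h5 ζ (by linarith)
    have a2 := ext_deriv hR2 h6 (fun w hw => h7 w hw.le) (w := ζ) (by linarith)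
    rw [a1.deriv] at a2
    refine ContinuousLinearMap.opNorm_le_bound _ (by positivity) fun z => ?_
    have a4 : (fderiv ℝ u ζ - ContinuousLinearMap.inl ℝ ℂ ℂ) z = z • (px u ζ - (1, 0)) := by
      rw [_root_.sub_apply, MP_ccffa6_gt.fderiv_eq_px_py, (h.hol ζ trivial).1,
        hJ _ ((h1 ζ (by linarith)).trans_le (norm_fst_le _)), J0_apply, smul_sub]
      congr 1
      · conv_rhs => rw [← re_add_im z, add_smul, mul_smul, coe_smul, coe_smul]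
      · simp
    rw [a4, norm_smul, mul_comm]
    gcongr

theorem exists_rad {K : Set E} (hK : IsCompact K) :
    ∃ R : ℝ, 0 < R ∧ ∀ x, R < ‖x‖ → x ∉ K := by
  obtain ⟨R, hR⟩ := hK.isBounded.exists_norm_le
  exact ⟨max R 1, lt_max_of_lt_right one_pos, fun x hx hm =>
    hx.not_ge ((hR x hm).trans (le_max_left _ _))⟩

end Pool.Agent.Lib.MP_7ed551_gt.Cy
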