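import Pool.Agent.Lib.MP_7ed551_gt.Cy.IfaceF
import Pool.Agent.Lib.MP_102662_an.Koebe

/-! Holomorphic functions outside a disc. -/

open scoped ContDiff Topology
open Set Filter Metric Complex

noncomputable section

namespace Pool.Agent.Lib.MP_7ed551_gt.Cy

open Pool.Agent.Lib.MP_ccffa6_gt (px py JHol)

variable {F : Type} [NormedAddCommGroup F] [NormedSpace ℂ F] [CompleteSpace F]

theorem extP_mem {R : ℝ} (hR : 0 < R) {t : ℂ} (ht : t ∈ ball (0 : ℂ) R⁻¹) (h0 : t ≠ 0) :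
    R < ‖t⁻¹‖ :=
  norm_inv t ▸ (lt_inv_comm₀ hR (norm_pos_iff.2 h0)).2 (mem_ball_zero_iff.1 ht)

theorem extP_lim {G : Type} [TopologicalSpace G] {φ : ℂ → G} {a : G}
    (hl : Tendsto φ (cocompact ℂ) (𝓝 a)) : Tendsto (fun t : ℂ => φ t⁻¹) (𝓝[≠] 0) (𝓝 a) :=
  hl.comp (Metric.cobounded_eq_cocompact (α := ℂ) ▸ Filter.tendsto_inv₀_nhdsNE_zero)

theorem ext_inv {φ : ℂ → F} {R : ℝ} (hR : 0 < R) (hφ : DifferentiableOn ℂ φ {w | R < ‖w‖})
    (hl : Tendsto φ (cocompact ℂ) (𝓝 0)) :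
    DifferentiableOn ℂ (Function.update (fun t : ℂ => φ t⁻¹) 0 0) (ball 0 R⁻¹) :=
  (differentiableOn_compl_singleton_and_continuousAt_iff (ball_mem_nhds 0 (inv_pos.2 hR))).1
    ⟨(hφ.comp (differentiableOn_inv.mono fun _ ht => ht.2) fun _ ht => extP_mem hR ht.1 ht.2).congr
      fun _ ht => Function.update_of_ne ht.2 _ _, continuousAt_update_same.2 (extP_lim hl)⟩

theorem ext_schwarz {φ : ℂ → F} {R M : ℝ} (hR : 0 < R) (hφ : DifferentiableOn ℂ φ {w | R < ‖w‖})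
    (hc : ContinuousOn φ {w | R ≤ ‖w‖}) (hM : ∀ w, ‖w‖ = R → ‖φ w‖ ≤ M)
    (hl : Tendsto φ (cocompact ℂ) (𝓝 0)) {w : ℂ} (hw : R ≤ ‖w‖) : ‖φ w‖ ≤ M * R / ‖w‖ := by
  rcases hw.eq_or_lt with h | h
  · rw [← h, mul_div_cancel_right₀ _ hR.ne']
    exact hM w h.symm
  have hd := ext_inv hR hφ hl
  have h0 : w ≠ 0 := norm_pos_iff.1 (hR.trans h)
  have hcl := DiffContOnCl.mk_ball hd (continuousOn_update_iff.2 ⟨hc.comp
    (continuousOn_inv₀.mono fun _ ht => ht.2) fun t ht => (norm_inv t).ge.trans'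
      ((le_inv_comm₀ hR (norm_pos_iff.2 ht.2)).2 (mem_closedBall_zero_iff.1 ht.1)),
    fun _ => (extP_lim hl).mono_left (nhdsWithin_mono _ fun _ ht => ht.2)⟩)
  have := dist_le_div_mul_dist_of_mapsTo_ball (R₂ := M) (z := w⁻¹) hd (fun t ht => by
    rw [Function.update_self, mem_closedBall_zero_iff]
    refine norm_le_of_forall_mem_frontier_norm_le isBounded_ball hcl (fun z hz => ?_)
      (subset_closure ht)
    have e : ‖z‖ = R⁻¹ := mem_sphere_zero_iff_norm.1 (frontier_ball_subset_sphere hz)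
    rw [Function.update_of_ne (norm_pos_iff.1 (e ▸ inv_pos.2 hR))]
    exact hM _ (by rw [norm_inv, e, inv_inv]))
    (mem_ball_zero_iff.2 (norm_inv w ▸ inv_strictAnti₀ hR h))
  rwa [Function.update_self, Function.update_of_ne (inv_ne_zero h0), inv_inv, dist_zero_right,
    dist_zero_right, norm_inv, div_inv_eq_mul, ← div_eq_mul_inv] at this

theorem ext_deriv {φ : ℂ → F} {R A : ℝ} (hR : 0 < R) (hφ : DifferentiableOn ℂ φ {w | R < ‖w‖})
    (hA : ∀ w, R < ‖w‖ → ‖φ w‖ ≤ A / ‖w‖) {w : ℂ} (hw : 2 * R < ‖w‖) :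
    ‖deriv φ w‖ ≤ 4 * A / ‖w‖ ^ 2 := by
  have h0 : 0 < ‖w‖ := by linarith
  have hz : ∀ z ∈ closedBall w (‖w‖ / 2), ‖w‖ / 2 ≤ ‖z‖ := fun z hz => by
    linarith [mem_closedBall_iff_norm'.1 hz, norm_sub_norm_le w z]
  have hA0 : 0 ≤ A := by
    have := (norm_nonneg _).trans (hA w (by linarith))
    rwa [le_div_iff₀ h0, zero_mul] at this
  refine (norm_deriv_le_of_forall_mem_sphere_norm_le (C := A / (‖w‖ / 2)) (half_pos h0)
    (hφ.diffContOnCl_ball fun z h => show R < ‖z‖ by linarith [hz z h]) fun z h => ?_).trans_eq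
    (by field_simp; norm_num)
  have := hz z (sphere_subset_closedBall h)
  exact (hA z (by linarith)).trans (div_le_div_of_nonneg_left hA0 (half_pos h0) this)

theorem ext_koebe {g : ℂ → ℂ} {R : ℝ} (hR : 0 < R) (hg : DifferentiableOn ℂ g {w | R < ‖w‖})
    (hi : InjOn g {w | R < ‖w‖}) (hl : Tendsto (fun w => g w - w) (cocompact ℂ) (𝓝 0)) {ζ : ℂ}
    (h : ζ ∉ g '' {w | R < ‖w‖}) : ‖ζ‖ ≤ 2 * R := by
  have hd := ext_inv (φ := fun w => g w - w) hR (hg.sub differentiableOn_id) hl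
  set ψ := Function.update (fun t : ℂ => g t⁻¹ - t⁻¹) 0 0
  have hb := ball_mem_nhds (0 : ℂ) (inv_pos.2 hR)
  have hD : ∀ t : ℂ, t ≠ 0 → 1 - ζ * t + t * ψ t = t * (g t⁻¹ - ζ) := fun t ht => by
    simp only [ψ, Function.update_of_ne ht]
    field_simp
    ring
  have hn : ∀ t ∈ ball (0 : ℂ) R⁻¹, t ≠ 0 → g t⁻¹ - ζ ≠ 0 := fun t ht h0 e =>
    h ⟨_, extP_mem hR ht h0, sub_eq_zero.1 e⟩
  let k : ℂ → ℂ := fun t => (1 - ζ * t + t * ψ t)⁻¹
  have hk : DifferentiableOn ℂ k (ball 0 R⁻¹) := DifferentiableOn.inv (by fun_prop) fun t ht => by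
    by_cases h0 : t = 0
    · simp [h0]
    · exact hD t h0 ▸ mul_ne_zero h0 (hn t ht h0)
  have hv : ∀ t : ℂ, t ≠ 0 → t * k t = (g t⁻¹ - ζ)⁻¹ := fun t ht => by
    simp only [k, hD t ht, mul_inv, mul_inv_cancel_left₀ ht]
  have k1 : HasDerivAt k ζ 0 := by
    refine ((((hasDerivAt_id' 0).const_mul ζ).const_sub 1).fun_add ((hasDerivAt_id' 0).fun_mul
      (hd.differentiableAt hb).hasDerivAt)).fun_inv (by simp) |>.congr_deriv ?_
    simp [ψ]
  have e1 : deriv (fun t => t * k t) =ᶠ[𝓝 0] fun t => k t + t * deriv k t :=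
    (hk.eventually_differentiableAt hb).mono fun t ht =>
      ((hasDerivAt_id' t).fun_mul ht.hasDerivAt).deriv.trans (by rw [one_mul])
  have := MP_102662_an.univ_deriv2_le (h := fun t => t * k t) (inv_pos.2 hR)
    (differentiableOn_id.mul hk) fun s hs t ht e => by
      by_cases s0 : s = 0 <;> by_cases t0 : t = 0
      · rw [s0, t0]
      · exact (inv_ne_zero (hn t ht t0) (by simpa [s0, hv t t0] using e.symm)).elim
      · exact (inv_ne_zero (hn s hs s0) (by simpa only [t0, hv s s0, zero_mul] using e)).elim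
      · simp only [hv s s0, hv t t0, inv_inj, sub_left_inj] at e
        exact inv_inj.1 (hi (extP_mem hR hs s0) (extP_mem hR ht t0) e)
  rw [e1.deriv_eq, e1.eq_of_nhds, (k1.fun_add ((hasDerivAt_id' 0).fun_mul
    ((hk.deriv isOpen_ball).differentiableAt hb).hasDerivAt)).deriv, k1.deriv] at this
  simp [k, ← two_mul] at this
  linarith

end Pool.Agent.Lib.MP_7ed551_gt.Cy
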