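import Pool.Agent.Lib.MP_7ed551_gt.Cy.P.Grad

/-! Compactness of the space of leaves. -/

open scoped ContDiff Topology
open Set Filter Metric Complex MeasureTheory

noncomputable section

namespace Pool.Agent.Lib.MP_7ed551_gt.Cy

open Pool.Agent.Lib.MP_ccffa6_gt (Form1 dF px py JHol dens)

variable {Λ : Form1 E} {J : ℝ × E → E →L[ℝ] E} {K : Set E}

theorem cptP_bd (h : Path Λ J K) (T M ρ : ℝ) : ∃ C : ℝ, ∀ t c u, |t| ≤ T → ‖c‖ ≤ M →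
    Leaf (fun x => J (t, x)) u c → ∀ ζ, ‖ζ‖ ≤ ρ → ‖u ζ‖ ≤ C ∧ ‖fderiv ℝ u ζ‖ ≤ C := by
  obtain ⟨R, hR, hK⟩ := exists_rad h.cpt
  obtain ⟨G, hG⟩ := h.grad T M
  refine ⟨max (6 * R + 2 * M + max ρ M) G, fun t c u ht hc hu ζ hζ =>
    ⟨le_max_of_le_left ?_, le_max_of_le_right (hG t c u ht hc hu ζ)⟩⟩
  have h1 := (hu.tail hR fun x hx => h.farJ (t, x) (hK x hx)).2.1 ζ
  have h2 : ‖((ζ, c) : E)‖ ≤ max ρ M := max_le_max hζ hc
  linarith [norm_sub_norm_le (u ζ) (ζ, c)]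

theorem Path.jets (h : Path Λ J K) (T M ρ : ℝ) (j : ℕ) : ∃ C : ℝ, ∀ t c u, |t| ≤ T → ‖c‖ ≤ M →
    Leaf (fun x => J (t, x)) u c → ∀ ζ, ‖ζ‖ ≤ ρ → ‖iteratedFDeriv ℝ j u ζ‖ ≤ C := by
  obtain ⟨B, hB⟩ := cptP_bd h T M (ρ + 1)
  have d : ∀ (t : ℝ) {u : ℂ → E}, ContDiff ℝ ∞ u → ∀ z,
      fderiv ℝ (fun z => (t, u z)) z = (0 : ℂ →L[ℝ] ℝ).prod (fderiv ℝ u z) :=
    fun t u hu z => ((hasFDerivAt_const t z).prodMk
      (hu.differentiable (by simp) z).hasFDerivAt).fderiv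
  obtain ⟨C, hC⟩ := Pool.Agent.Lib.MP_ccffa6_gt.t_eest (ℝ × E)
    (fun p => (ContinuousLinearMap.inr ℝ ℝ E).comp ((J p).comp (ContinuousLinearMap.snd ℝ ℝ E)))
    {p : ℝ × ℂ × (ℂ → E) // |p.1| ≤ T ∧ ‖p.2.1‖ ≤ M ∧ Leaf (fun x => J (p.1, x)) p.2.2 p.2.1}
    (fun p z => (p.1.1, p.1.2.2 z)) (ball 0 (ρ + 1))
    (contDiff_const.clm_comp (h.smJ.clm_comp contDiff_const)) isOpen_ball
    (fun p => (contDiff_const.prodMk p.2.2.2.sm).contDiffOn)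
    (fun p z _ => by
      simp only [px, py, d _ p.2.2.2.sm]
      exact ⟨Prod.ext rfl (p.2.2.2.hol z trivial).1, Prod.ext (by simp) (p.2.2.2.hol z trivial).2⟩)
    ⟨max T B, fun p z hz => by
      obtain ⟨a1, a2⟩ := hB _ _ _ p.2.1 p.2.2.1 p.2.2.2 z (mem_ball_zero_iff.1 hz).le
      refine ⟨max_le_max p.2.1 a1, ?_⟩
      rw [d _ p.2.2.2.sm, ContinuousLinearMap.opNorm_prod]
      exact max_le_max (norm_zero.trans_le ((abs_nonneg _).trans p.2.1)) a2⟩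
    (closedBall 0 ρ) (isCompact_closedBall _ _) (closedBall_subset_ball (lt_add_one _)) j
  refine ⟨C, fun t c u ht hc hu ζ hζ => le_trans ?_
    (hC ⟨(t, c, u), ht, hc, hu⟩ ζ (mem_closedBall_zero_iff.2 hζ))⟩
  exact ((ContinuousLinearMap.snd ℝ ℝ E).norm_iteratedFDeriv_comp_left (f := fun z => (t, u z))
    (contDiff_const.prodMk hu.sm).contDiffAt (by exact_mod_cast le_top)).trans
    (mul_le_of_le_one_left (norm_nonneg _) (ContinuousLinearMap.norm_snd_le ..))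

theorem Path.compact (h : Path Λ J K) {t : ℕ → ℝ} {t₀ : ℝ} (ht : Tendsto t atTop (𝓝 t₀))
    {c : ℕ → ℂ} {c₀ : ℂ} (hc : Tendsto c atTop (𝓝 c₀)) {u : ℕ → ℂ → E}
    (hu : ∀ n, Leaf (fun x => J (t n, x)) (u n) (c n)) :
    ∃ (φ : ℕ → ℕ) (v : ℂ → E), StrictMono φ ∧ Leaf (fun x => J (t₀, x)) v c₀ ∧
      TendstoLocallyUniformly (fun n => u (φ n)) v atTop ∧
      TendstoLocallyUniformly (fun n => fderiv ℝ (u (φ n))) (fderiv ℝ v) atTop := by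
  obtain ⟨φ, v, hφ, h1, h2, h3, h4⟩ := eaa_path h.smJ ht (fun n => (hu n).sm) (fun n => (hu n).hol)
    fun ρ => (cptP_bd h (|t₀| + 1) (‖c₀‖ + 1) ρ).imp fun C hC => by
      filter_upwards [ht.abs.eventually_le_const (lt_add_one _),
        hc.norm.eventually_le_const (lt_add_one _)] with n a b using hC _ _ _ a b (hu n)
  refine ⟨φ, v, hφ, ⟨h1, h2, ?_⟩, h3, h4⟩
  obtain ⟨R, hR, hK⟩ := exists_rad h.cpt
  have hn : Tendsto (fun ζ : ℂ => ‖ζ‖) (cocompact ℂ) atTop := tendsto_norm_cocompact_atTop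
  have c' := hc.comp hφ.tendsto_atTop
  refine squeeze_zero_norm' ?_ (hn.const_div_atTop ((6 * R + 2 * ‖c₀‖) * (2 * R)))
  filter_upwards [hn.eventually_ge_atTop (2 * R)] with ζ hζ
  exact le_of_tendsto_of_tendsto'
    ((h3.tendstoLocallyUniformlyOn.tendsto_at (mem_univ ζ)).sub
      (tendsto_const_nhds.prodMk_nhds c')).norm
    ((((c'.norm.const_mul 2).const_add _).mul_const _).div_const _) fun n =>
    ((hu (φ n)).tail hR fun x hx => h.farJ (_, x) (hK x hx)).2.2.1 ζ hζ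

end Pool.Agent.Lib.MP_7ed551_gt.Cy
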