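import Pool.Agent.Lib.MP_7ed551_gt.Cy.P.Ext
import Pool.Agent.Lib.MP_436e1a_gt.E.DegEx
import Pool.Agent.Lib.MP_7ed551_gt.Cy.D.Deg

/-! A map that is holomorphic over the outside of a disc. -/

open scoped ContDiff Topology
open Set Filter Metric Complex

noncomputable section

namespace Pool.Agent.Lib.MP_7ed551_gt.Cy

open Pool.Agent.Lib.MP_ccffa6_gt (px py JHol)

variable {f : ℂ → ℂ} {R : ℝ}

theorem bijP_bd (hf : Continuous f) (hl : Tendsto (fun ζ => f ζ - ζ) (cocompact ℂ) (𝓝 0)) :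
    ∃ C, ∀ ζ, ‖f ζ - ζ‖ ≤ C :=
  let ⟨C, h⟩ := (hl.isCompact_insert_range_of_cocompact (hf.sub continuous_id)).isBounded.exists_norm_le
  ⟨C, fun ζ => h _ (Or.inr ⟨ζ, rfl⟩)⟩

theorem bijP_deg (hf : Continuous f) {C : ℝ} (hC : ∀ ζ, f ζ = 0 → ‖ζ‖ ≤ C)
    (h : ∀ ζ, f ζ = 0 → ∃ a : ℂ, a ≠ 0 ∧ HasDerivAt f a ζ) :
    ∃ Z : Finset E, (∀ v, v ∈ Z ↔ f v.1 = 0 ∧ v.2 = 0) ∧
      dTh.deg (fun v : E => (f v.1, v.2)) univ = Z.card := by
  have c : Continuous fun v : E => (f v.1, v.2) := by fun_prop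
  have a : CSP.Adm (fun v : E => (f v.1, v.2)) univ := ⟨isOpen_univ, c.continuousOn,
    ((isCompact_closedBall 0 C).prod (isCompact_singleton (x := 0))).of_isClosed_subset
      (isClosed_univ.inter (isClosed_eq c continuous_const)) fun v hv =>
      ⟨mem_closedBall_zero_iff.2 (hC _ (congrArg Prod.fst hv.2)), (congrArg Prod.snd hv.2 :)⟩⟩
  have d : ∀ z ∈ {z : E | z ∈ univ ∧ (f z.1, z.2) = 0}, ∃ A : E →L[ℝ] E, 0 < A.det ∧
      HasFDerivAt (fun v : E => (f v.1, v.2)) A z := fun z hz => by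
    obtain ⟨a, a1, a2⟩ := h _ (congrArg Prod.fst hz.2)
    refine ⟨_, det_pos_of_complex fun u v e => ?_, ((a2.hasFDerivAt.comp z
      (hasFDerivAt_fst (𝕜 := ℂ))).prodMk hasFDerivAt_snd).restrictScalars ℝ⟩
    simpa [Prod.ext_iff, a1] using e
  have k := a.2.2.finite (isDiscrete_iff_nhdsNE.2 fun z hz => by
    obtain ⟨A, a1, a2⟩ := d z hz
    exact inf_principal_eq_bot.2 ((a2.eventually_ne (c := 0) (CSP.dx4_anti a1.ne')).mono
      fun y hy e => hy e.2))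
  exact ⟨k.toFinset, fun v => by simp [Prod.ext_iff],
    deg_fin k.toFinset a (fun v => k.mem_toFinset) fun v hv => d v (k.mem_toFinset.1 hv)⟩

theorem ext_count (hf : Continuous f) (hl : Tendsto (fun ζ => f ζ - ζ) (cocompact ℂ) (𝓝 0)) {w : ℂ}
    (h : ∀ ζ, f ζ = w → ∃ a : ℂ, a ≠ 0 ∧ HasDerivAt f a ζ) : ∃! ζ, f ζ = w := by
  obtain ⟨C, hC⟩ := bijP_bd hf hl
  have b : ∀ τ ∈ Icc (0 : ℝ) 1, ∀ ζ, ζ - w + τ • (f ζ - ζ) = 0 → ‖ζ‖ ≤ ‖w‖ + C := fun τ hτ ζ e => by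
    rw [show ζ = w - τ • (f ζ - ζ) by linear_combination e]
    refine (norm_sub_le _ _).trans (add_le_add le_rfl ?_)
    rw [norm_smul, Real.norm_of_nonneg hτ.1]
    exact (mul_le_of_le_one_left (norm_nonneg _) hτ.2).trans (hC ζ)
  have c : Continuous fun p : ℝ × E => (p.2.1 - w + p.1 • (f p.2.1 - p.2.1), p.2.2) := by fun_prop
  have e := dTh.htpy (Ω := univ) isOpen_univ c.continuousOn
    ((isCompact_Icc.prod ((isCompact_closedBall 0 (‖w‖ + C)).prod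
      (isCompact_singleton (x := 0)))).of_isClosed_subset (isClosed_univ.inter
      ((isClosed_Icc.preimage continuous_fst).inter (isClosed_eq c continuous_const))) fun p hp =>
      ⟨hp.2.1, mem_closedBall_zero_iff.2 (b _ hp.2.1 _ (congrArg Prod.fst hp.2.2)),
        (congrArg Prod.snd hp.2.2 :)⟩)
  obtain ⟨Z, z1, z2⟩ := bijP_deg (f := fun ζ => f ζ - w) (by fun_prop)
    (fun ζ e => b 1 (by simp) ζ (by rw [← e, one_smul]; ring)) fun ζ e =>
      (h ζ (sub_eq_zero.1 e)).imp fun a ha => ⟨ha.1, ha.2.sub_const w⟩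
  obtain ⟨Y, y1, y2⟩ := bijP_deg (f := fun ζ => ζ - w) (by fun_prop)
    (fun ζ e => (congrArg norm (sub_eq_zero.1 e)).le) fun ζ _ =>
      ⟨1, one_ne_zero, (hasDerivAt_id ζ).sub_const w⟩
  simp only [mem_univ, ofPred_true, zero_smul, add_zero, one_smul, sub_add_sub_cancel'] at e
  rw [y2, z2, show Y = {(w, 0)} from Finset.ext fun v => by simp [y1, Prod.ext_iff, sub_eq_zero],
    Finset.card_singleton, Nat.cast_inj, eq_comm, Finset.card_eq_one] at e
  obtain ⟨v, rfl⟩ := e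
  exact ⟨v.1, sub_eq_zero.1 ((z1 v).1 (Finset.mem_singleton_self v)).1, fun ζ e =>
    congrArg Prod.fst (Finset.mem_singleton.1 ((z1 (ζ, 0)).2 ⟨sub_eq_zero.2 e, rfl⟩))⟩

theorem ext_bij (hf : Continuous f) (hh : DifferentiableOn ℂ f {ζ | R < ‖f ζ‖})
    (hl : Tendsto (fun ζ => f ζ - ζ) (cocompact ℂ) (𝓝 0)) :
    BijOn f {ζ | R < ‖f ζ‖} {w | R < ‖w‖} := by
  have o : IsOpen {ζ | R < ‖f ζ‖} := isOpen_lt continuous_const hf.norm
  have a := hh.analyticOnNhd o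
  have m : ∀ ζ, R < ‖f ζ‖ → 𝓝 (f ζ) ≤ map f (𝓝 ζ) := fun ζ hζ => by
    refine (a ζ hζ).eventually_constant_or_nhds_le_map_nhds.resolve_left fun e => ?_
    have k : IsClopen {z | ∀ᶠ y in 𝓝 z, f y = f ζ} := by
      refine ⟨isClosed_of_closure_subset fun z hz => by_contra fun n => n ?_,
        isOpen_setOfPred_eventually_nhds⟩
      have e1 : f z = f ζ := closure_minimal (fun y hy => Eventually.self_of_nhds hy)
        (isClosed_eq hf continuous_const) hz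
      refine ((a z (by simpa only [mem_ofPred_eq, e1] using hζ)).frequently_eq_iff_eventually_eq
        analyticAt_const).1 (frequently_nhdsWithin_iff.2
          ((mem_closure_iff_frequently.1 hz).mono fun y hy => ⟨hy.self_of_nhds, ?_⟩))
      rintro rfl
      exact n hy
    obtain ⟨C, hC⟩ := bijP_bd hf hl
    have e2 := hC (f ζ - (|C| + 1 : ℝ))
    rw [(k.eq_univ ⟨ζ, e⟩ ▸ mem_univ _ : _ ∈ {z | ∀ᶠ y in 𝓝 z, f y = f ζ}).self_of_nhds,
      sub_sub_cancel, norm_real, Real.norm_of_nonneg (by positivity)] at e2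
    linarith [le_abs_self C]
  refine ⟨fun _ h => h, fun x hx y hy e => by_contra fun n => ?_, fun w hw => by_contra fun n => ?_⟩
  · obtain ⟨U, V, hU, hV, d⟩ := t2_separation_nhds n
    have s := MeasureTheory.addHaar_image_eq_zero_of_det_fderivWithin_eq_zero
      MeasureTheory.volume (s := {ζ | R < ‖f ζ‖ ∧ deriv f ζ = 0}) (f := f) (f' := fun _ => 0)
      (fun ζ hζ => by
        simpa [hζ.2] using
          ((a ζ hζ.1).differentiableAt.hasDerivAt.hasFDerivAt.restrictScalars ℝ).hasFDerivWithinAt)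
      fun _ _ => by simp [ContinuousLinearMap.det]
    obtain ⟨w, w1, ⟨⟨u, u1, u2⟩, v, v1, v2⟩, w2⟩ := (MeasureTheory.Measure.dense_of_ae
      (MeasureTheory.measure_eq_zero_iff_ae_notMem.1 s)).inter_nhds_nonempty
      (inter_mem (inter_mem (m x hx (image_mem_map hU)) (e ▸ m y hy (image_mem_map hV)))
        ((isOpen_lt continuous_const continuous_norm).mem_nhds hx))
    refine disjoint_left.1 d u1 ((ext_count hf hl fun ζ hζ => ?_).unique u2 v2 ▸ v1)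
    have h3 : R < ‖f ζ‖ := hζ ▸ w2
    exact ⟨_, fun e => w1 ⟨ζ, ⟨h3, e⟩, hζ⟩, (a ζ h3).differentiableAt.hasDerivAt⟩
  · have h3 : ∀ ζ, f ζ ≠ w := fun ζ e => n ⟨ζ, show R < ‖f ζ‖ from e ▸ hw, e⟩
    exact (ext_count hf hl fun ζ e => (h3 ζ e).elim).exists.elim h3

end Pool.Agent.Lib.MP_7ed551_gt.Cy
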