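import Pool.Agent.Lib.MP_7ed551_gt.Cy.P.En

/-! There are no bubbles. -/

open scoped ContDiff Topology
open Set Filter Metric Complex MeasureTheory

noncomputable section

namespace Pool.Agent.Lib.MP_7ed551_gt.Cy

open Pool.Agent.Lib.MP_ccffa6_gt (Form1 dF px py JHol dens)

variable {Λ : Form1 E} {J : ℝ × E → E →L[ℝ] E} {K : Set E}

theorem bubP_cut : ∃ D : ℝ, ∀ ρ : ℝ, 0 < ρ → ∃ χ : ℂ → ℝ, ContDiff ℝ ∞ χ ∧ HasCompactSupport χ ∧
    (∀ z, 0 ≤ χ z) ∧ (∀ z ∈ ball (0 : ℂ) ρ, χ z = 1 ∧ fderiv ℝ χ z = 0) ∧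
    Integrable (fun z => ‖fderiv ℝ χ z‖ ^ 2) ∧ ∫ z, ‖fderiv ℝ χ z‖ ^ 2 = D := by
  let φ : ContDiffBump (0 : ℂ) := ⟨1, 2, one_pos, one_lt_two⟩
  have h0 : ContDiff ℝ ∞ φ := φ.contDiff
  refine ⟨∫ z, ‖fderiv ℝ φ z‖ ^ 2, fun ρ hρ => ?_⟩
  have h1 : ContDiff ℝ ∞ fun z : ℂ => φ (ρ⁻¹ • z) := h0.comp (contDiff_id.const_smul _)
  have h2 : HasCompactSupport fun z : ℂ => φ (ρ⁻¹ • z) :=
    φ.hasCompactSupport.comp_homeomorph (Homeomorph.smulOfNeZero ρ⁻¹ (inv_ne_zero hρ.ne'))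
  have h3 : ∀ z ∈ ball (0 : ℂ) ρ, φ (ρ⁻¹ • z) = 1 := fun z hz => φ.one_of_mem_closedBall (by
    rw [mem_closedBall_zero_iff, norm_smul, norm_inv, Real.norm_of_nonneg hρ.le]
    exact inv_mul_le_one_of_le₀ (mem_ball_zero_iff.1 hz).le hρ.le)
  refine ⟨_, h1, h2, fun _ => φ.nonneg, fun z hz => ⟨h3 z hz, ?_⟩, ?_, ?_⟩
  · rw [EventuallyEq.fderiv_eq (f := fun _ => (1 : ℝ))
      ((isOpen_ball.eventually_mem hz).mono h3), fderiv_fun_const, Pi.zero_apply]
  · have h4 := (h2.fderiv ℝ).norm.comp_left (g := fun a : ℝ => a ^ 2) (by simp)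
    exact Continuous.integrable_of_hasCompactSupport
      ((h1.continuous_fderiv (by simp)).norm.fun_pow 2) h4
  · simp only [fderiv_comp_smul, norm_smul, mul_pow, norm_inv, Real.norm_of_nonneg hρ.le]
    rw [integral_const_mul, Measure.integral_comp_inv_smul_of_nonneg volume
      (fun z => ‖fderiv ℝ φ z‖ ^ 2) hρ.le, finrank_real_complex, smul_eq_mul]
    field_simp

theorem Path.bubble (h : Path Λ J K) {t : ℝ} {v : ℂ → E} (hv : ContDiff ℝ ∞ v)
    (hol : JHol (fun x => J (t, x)) v univ) {B C : ℝ} (hB : ∀ z, ‖v z‖ ≤ B)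
    (hC : ∀ ρ, ∫ z in ball (0 : ℂ) ρ, ‖px v z‖ ^ 2 ≤ C) (z : ℂ) : px v z = 0 := by
  obtain ⟨D, hD⟩ := bubP_cut
  have hS : IsCompact (({t} : Set ℝ) ×ˢ closedBall (0 : E) B) :=
    isCompact_singleton.prod (isCompact_closedBall _ _)
  have hz : ∀ z, (t, v z) ∈ ({t} : Set ℝ) ×ˢ closedBall (0 : E) B := fun z =>
    ⟨rfl, mem_closedBall_zero_iff.2 (hB z)⟩
  obtain ⟨m, hm, h1⟩ := h.tame_bound hS
  obtain ⟨L, hL⟩ := hS.exists_bound_of_continuousOn
    (h.smΛ.continuous.comp continuous_snd).continuousOn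
  obtain ⟨L', hL'⟩ := hS.exists_bound_of_continuousOn h.smJ.continuous.continuousOn
  have L0 : 0 ≤ L := (norm_nonneg _).trans (hL _ (hz 0))
  have L1 : 0 ≤ L' := (norm_nonneg _).trans (hL' _ (hz 0))
  have hg : Continuous fun z => ‖px v z‖ ^ 2 :=
    ((hv.continuous_fderiv (by simp)).clm_apply continuous_const).norm.pow 2
  have hc := aecover_ball (μ := volume) (x := (0 : ℂ)) (tendsto_id (x := atTop))
  have hi : Integrable fun z => ‖px v z‖ ^ 2 := hc.integrable_of_integral_bounded_of_nonneg_ae C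
    (fun ρ => (hg.continuousOn.integrableOn_compact (isCompact_closedBall 0 ρ)).mono_set
      ball_subset_closedBall) (.of_forall fun _ => sq_nonneg _) (.of_forall hC)
  have ht := hc.integral_tendsto_of_countably_generated hi
  have h2 : ∀ z, m * ‖px v z‖ ^ 2 ≤ dens Λ v z := fun z => by
    rw [dens, (hol z trivial).1]
    exact h1 _ (hz z) _
  have h3 : ∀ ε : ℝ, 0 < ε → ∀ ρ : ℝ, 0 < ρ → m * ∫ z in ball (0 : ℂ) ρ, ‖px v z‖ ^ 2 ≤
      L * (1 + L') * (ε * D + ε⁻¹ *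
        ((∫ z, ‖px v z‖ ^ 2) - ∫ z in ball (0 : ℂ) ρ, ‖px v z‖ ^ 2)) := by
    intro ε hε ρ hρ
    obtain ⟨χ, c1, c2, c3, c4, c5, c6⟩ := hD ρ hρ
    have i1 := hi.indicator (measurableSet_ball (x := (0 : ℂ)) (ε := ρ)).compl
    rw [← setIntegral_compl measurableSet_ball hi, ← integral_indicator measurableSet_ball.compl,
      ← c6, ← integral_const_mul ε, ← integral_const_mul ε⁻¹,
      ← integral_add (c5.const_mul _) (i1.const_mul _), ← integral_const_mul (L * _),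
      ← integral_const_mul, ← integral_indicator measurableSet_ball]
    refine (integral_mono_of_nonneg (g := fun z => χ z * dens Λ v z) (.of_forall fun z =>
      indicator_nonneg (fun _ _ => by positivity) z) ((c1.continuous.mul
        (continuous_iff_continuousAt.2 fun z => Pool.Agent.Lib.MP_ccffa6_gt.continuousAt_dens
          (h.smΛ.contDiffAt.of_le (by norm_cast)) (hv.contDiffAt.of_le
            (by norm_cast)))).integrable_of_hasCompactSupport c2.mul_right)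
      (.of_forall fun z => ?_)).trans ?_
    · by_cases k : z ∈ ball (0 : ℂ) ρ
      · simp only [indicator_of_mem k, (c4 z k).1, one_mul, h2]
      · simp only [indicator_of_notMem k]
        exact mul_nonneg (c3 z) (le_trans (by positivity) (h2 z))
    rw [dens_cut h.smΛ hv c1 c2]
    refine (Real.le_norm_self _).trans (norm_integral_le_of_norm_le
      (((c5.const_mul ε).fun_add (i1.const_mul ε⁻¹)).const_mul _) (.of_forall fun z => ?_))
    by_cases k : z ∈ ball (0 : ℂ) ρ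
    · simp [px, py, (c4 z k).2, k]
    have a1 : ‖Λ (v z) (px v z)‖ ≤ L * ‖px v z‖ := (Λ (v z)).le_of_opNorm_le (hL _ (hz z)) _
    have a2 : ‖Λ (v z) (py v z)‖ ≤ L * (L' * ‖px v z‖) := by
      rw [(hol z trivial).1]
      exact (Λ (v z)).le_of_opNorm_le_of_le (hL _ (hz z))
        ((J (t, v z)).le_of_opNorm_le (hL' _ (hz z)) _)
    have a3 := mul_le_mul (Pool.Agent.Lib.MP_ccffa6_gt.norm_py_le χ z) a1 (norm_nonneg _)
      (norm_nonneg _)
    have a4 := mul_le_mul (Pool.Agent.Lib.MP_ccffa6_gt.norm_px_le χ z) a2 (norm_nonneg _)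
      (norm_nonneg _)
    have a5 : ‖fderiv ℝ χ z‖ * ‖px v z‖ ≤ ε * ‖fderiv ℝ χ z‖ ^ 2 + ε⁻¹ * ‖px v z‖ ^ 2 :=
      le_trans (by linarith [mul_nonneg (norm_nonneg (fderiv ℝ χ z)) (norm_nonneg (px v z))])
        (two_mul_le_add_mul_sq hε)
    refine (norm_sub_le _ _).trans ?_
    simp only [indicator_of_mem (mem_compl k), norm_mul]
    linarith [mul_le_mul_of_nonneg_left a5 (show 0 ≤ L * (1 + L') by positivity)]
  have h4 : ∀ ε : ℝ, 0 < ε → m * ∫ z, ‖px v z‖ ^ 2 ≤ L * (1 + L') * (ε * D) := fun ε hε => by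
    have := le_of_tendsto_of_tendsto (ht.const_mul m) (((((ht.const_sub
      (∫ z, ‖px v z‖ ^ 2)).const_mul ε⁻¹).const_add (ε * D))).const_mul (L * (1 + L')))
      ((eventually_gt_atTop 0).mono (h3 ε hε))
    simpa using this
  have h5 : m * ∫ z, ‖px v z‖ ^ 2 ≤ L * (1 + L') * (0 * D) :=
    ge_of_tendsto (f := fun ε => L * (1 + L') * (ε * D)) (x := 𝓝[>] 0)
      ((Continuous.tendsto (by fun_prop) 0).mono_left nhdsWithin_le_nhds)
      (eventually_mem_nhdsWithin.mono h4)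
  rw [zero_mul, mul_zero] at h5
  have h6 := (integral_eq_zero_iff_of_nonneg (fun _ => sq_nonneg _) hi).1
    (le_antisymm (nonpos_of_mul_nonpos_right h5 hm) (integral_nonneg fun _ => sq_nonneg _))
  simpa using congrFun ((hg.ae_eq_iff_eq volume continuous_zero).1 h6) z

end Pool.Agent.Lib.MP_7ed551_gt.Cy
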