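import Pool.Agent.Lib.MP_7ed551_gt.Cy.P.Bij

/-! The part that is not holomorphic lies in a fixed disc. -/

open scoped ContDiff Topology
open Set Filter Metric Complex

noncomputable section

namespace Pool.Agent.Lib.MP_7ed551_gt.Cy

open Pool.Agent.Lib.MP_ccffa6_gt (px py JHol)

variable {f : ℂ → ℂ} {R : ℝ}

theorem ext_inverse (hf : Continuous f) (hh : DifferentiableOn ℂ f {ζ | R < ‖f ζ‖})
    (hl : Tendsto (fun ζ => f ζ - ζ) (cocompact ℂ) (𝓝 0)) :
    ∃ g : ℂ → ℂ, DifferentiableOn ℂ g {w | R < ‖w‖} ∧ (∀ w, R < ‖w‖ → f (g w) = w) ∧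
      Tendsto (fun w => g w - w) (cocompact ℂ) (𝓝 0) := by
  have b := ext_bij hf hh hl
  have o : IsOpen {ζ | R < ‖f ζ‖} := isOpen_lt continuous_const hf.norm
  have r : ∀ w, R < ‖w‖ → f (Function.invFunOn f {ζ | R < ‖f ζ‖} w) = w :=
    fun w hw => b.invOn_invFunOn.2 hw
  refine ⟨_, fun w hw => ?_, r, ?_⟩
  · obtain ⟨ζ, hζ, rfl⟩ := b.surjOn hw
    obtain ⟨d, hd, hs⟩ := Metric.isOpen_iff.1 o ζ hζ
    exact (((hh.analyticAt (o.mem_nhds hζ)).hasStrictDerivAt.to_local_left_inverse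
      (MP_102662_an.univ_deriv_ne hd (hh.mono hs) (b.injOn.mono hs))
      (Filter.eventually_of_mem (o.mem_nhds hζ) fun x hx =>
        b.invOn_invFunOn.1 hx)).hasDerivAt.differentiableAt).differentiableWithinAt
  · have e : ∀ᶠ w in cocompact ℂ, R < ‖w‖ := tendsto_norm_cocompact_atTop.eventually_gt_atTop R
    have t : Tendsto (Function.invFunOn f {ζ | R < ‖f ζ‖}) (cocompact ℂ) (cocompact ℂ) :=
      hasBasis_cocompact.tendsto_right_iff.2 fun K hK => by
        filter_upwards [e, (hK.image hf).compl_mem_cocompact] with w h1 h2 h3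
        exact h2 ⟨_, h3, r w h1⟩
    have := (hl.comp t).neg
    rw [neg_zero] at this
    refine this.congr' (e.mono fun w hw => ?_)
    simp only [Function.comp_apply, r w hw, neg_sub]

theorem ext_disc (hR : 0 < R) (hf : Continuous f) (hh : DifferentiableOn ℂ f {ζ | R < ‖f ζ‖})
    (hl : Tendsto (fun ζ => f ζ - ζ) (cocompact ℂ) (𝓝 0)) :
    (∀ ζ, 2 * R < ‖ζ‖ → R < ‖f ζ‖) ∧ ∀ ζ, ‖ζ‖ ≤ 2 * R → ‖f ζ‖ ≤ 4 * R := by
  obtain ⟨g, g1, g2, g3⟩ := ext_inverse hf hh hl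
  have k : ∀ ζ, 2 * R < ‖ζ‖ → R < ‖f ζ‖ := fun ζ h => lt_of_not_ge fun e =>
    h.not_ge (ext_koebe hR g1 (fun a ha b hb e => by rw [← g2 a ha, e, g2 b hb]) g3 (by
      rintro ⟨w, hw, rfl⟩
      rw [g2 w hw] at e
      exact e.not_gt hw))
  have i := (ext_bij hf hh hl).injOn
  refine ⟨k, fun ζ h => le_of_not_gt fun e => ?_⟩
  have := ext_koebe (ζ := f ζ) (by positivity : 0 < 2 * R) (hh.mono k) (i.mono k) hl (by
    rintro ⟨w, hw, e'⟩
    rw [i (k w hw) (show R < ‖f ζ‖ by linarith) e'] at hw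
    exact h.not_gt hw)
  linarith

theorem discP_clopen {z : ℂ → ℂ} (hz : Continuous z) (hh : DifferentiableOn ℂ z {ζ | R < ‖z ζ‖})
    {x : ℂ} (hx : R < ‖z x‖) (hM : ∀ w, ‖z w‖ ≤ ‖z x‖) (w : ℂ) : z w = z x := by
  have o : IsOpen {ζ | R < ‖z ζ‖} := isOpen_lt continuous_const hz.norm
  have k : IsClopen {w | z w = z x} := ⟨isClosed_eq hz continuous_const,
    isOpen_iff_mem_nhds.2 fun y (hy : z y = z x) => by
      have := Complex.eventually_eq_of_isLocalMax_norm (f := z) (c := y)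
        (hh.eventually_differentiableAt (o.mem_nhds (show R < ‖z y‖ from hy ▸ hx)))
        (Eventually.of_forall fun u => (hM u).trans_eq (congrArg norm hy.symm))
      exact this.mono fun u hu => hu.trans hy⟩
  exact (k.eq_univ ⟨x, rfl⟩).ge (mem_univ w)

theorem ext_max {z : ℂ → ℂ} {c : ℂ} (hz : Continuous z)
    (hh : DifferentiableOn ℂ z {ζ | R < ‖z ζ‖}) (hl : Tendsto z (cocompact ℂ) (𝓝 c)) (ζ : ℂ) :
    ‖z ζ‖ ≤ max R ‖c‖ := by
  refine le_of_not_gt fun h => ?_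
  have e := hl.norm.eventually_lt_const ((le_max_right _ _).trans_lt h)
  obtain ⟨x, hx⟩ := hz.norm.exists_forall_ge' ζ (e.mono fun _ => le_of_lt)
  have k := discP_clopen hz hh (((le_max_left _ _).trans_lt h).trans_le (hx ζ)) hx
  obtain ⟨w, hw⟩ := e.exists
  rw [k w, k ζ] at hw
  exact lt_irrefl _ hw

theorem ext_const {z : ℂ → ℂ} {c : ℂ} (hz : Continuous z)
    (hh : DifferentiableOn ℂ z {ζ | R < ‖z ζ‖}) (hl : Tendsto z (cocompact ℂ) (𝓝 c))
    (hc : R < ‖c‖) (ζ : ℂ) : z ζ = c := by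
  have m : ∀ w, ‖z w‖ ≤ ‖c‖ := fun w => (ext_max hz hh hl w).trans_eq (max_eq_right hc.le)
  obtain ⟨K, hK, hs⟩ := hasBasis_cocompact.eventually_iff.1 (hl.norm.eventually_const_lt hc)
  obtain ⟨ρ, h0, hρ⟩ := hK.isBounded.exists_pos_norm_le
  have d := (ext_inv (φ := fun w => z w - c) h0
    ((hh.mono fun w (hw : ρ < ‖w‖) => hs fun e => (hρ w e).not_gt hw).sub_const c)
    (tendsto_sub_nhds_zero_iff.2 hl)).add_const c
  have e := Complex.eventually_eq_of_isLocalMax_norm (c := 0)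
    (d.eventually_differentiableAt (ball_mem_nhds _ (inv_pos.2 h0)))
    (Eventually.of_forall fun t => by
      by_cases h : t = 0
      · rw [h]
      · simpa [h] using m _)
  obtain ⟨t, h1, h2⟩ := ((e.filter_mono nhdsWithin_le_nhds).and
    (self_mem_nhdsWithin (s := {0}ᶜ))).exists
  have h3 : z t⁻¹ = c := by simpa [mem_compl_singleton_iff.1 h2] using h1
  exact (discP_clopen hz hh (h3 ▸ hc) (h3 ▸ m) ζ).trans h3

end Pool.Agent.Lib.MP_7ed551_gt.Cy
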