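import Pool.Agent.Lib.MP_7ed551_gt.Cy.P.Tail

/-! A bound for the energy. -/

open scoped ContDiff Topology
open Set Filter Metric Complex MeasureTheory

noncomputable section

namespace Pool.Agent.Lib.MP_7ed551_gt.Cy

open Pool.Agent.Lib.MP_ccffa6_gt (Form1 dF px py JHol dens)

variable {Λ : Form1 E} {J : ℝ × E → E →L[ℝ] E} {K : Set E}

theorem enP_parts {f χ : ℂ → ℝ} (hf : ContDiff ℝ ∞ f) (hχ : ContDiff ℝ ∞ χ)
    (hc : HasCompactSupport χ) (e : ℂ) : Integrable (fun z => fderiv ℝ χ z e * f z) ∧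
      Integrable (fun z => χ z * fderiv ℝ f z e) ∧
      ∫ z, χ z * fderiv ℝ f z e = -∫ z, fderiv ℝ χ z e * f z := by
  have a : ∀ {g : ℂ → ℝ}, ContDiff ℝ ∞ g → Continuous fun z => fderiv ℝ g z e := fun hg =>
    (hg.continuous_fderiv (by simp)).clm_apply continuous_const
  have a1 := ((a hχ).mul hf.continuous).integrable_of_hasCompactSupport (μ := volume)
    (hc.fderiv_apply ℝ e).mul_right
  have a2 := (hχ.continuous.mul (a hf)).integrable_of_hasCompactSupport (μ := volume) hc.mul_right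
  exact ⟨a1, a2, integral_mul_fderiv_eq_neg_fderiv_mul_of_integrable a1 a2
    ((hχ.continuous.mul hf.continuous).integrable_of_hasCompactSupport hc.mul_right)
    (fun z _ => hχ.differentiable (by simp) z) fun z _ => hf.differentiable (by simp) z⟩

theorem enP_sm (hΛ : ContDiff ℝ ∞ Λ) {u : ℂ → E} (hu : ContDiff ℝ ∞ u) (e : ℂ) :
    ContDiff ℝ ∞ fun w => Λ (u w) (fderiv ℝ u w e) :=
  (hΛ.comp hu).clm_apply ((hu.fderiv_right (m := ∞) (by simp)).clm_apply contDiff_const)

theorem dens_cut (hΛ : ContDiff ℝ ∞ Λ) {u : ℂ → E} (hu : ContDiff ℝ ∞ u) {χ : ℂ → ℝ}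
    (hχ : ContDiff ℝ ∞ χ) (hc : HasCompactSupport χ) : ∫ z, χ z * dens Λ u z =
      ∫ z, (py χ z * Λ (u z) (px u z) - px χ z * Λ (u z) (py u z)) := by
  obtain ⟨a1, a2, a3⟩ := enP_parts (enP_sm hΛ hu I) hχ hc 1
  obtain ⟨b1, b2, b3⟩ := enP_parts (enP_sm hΛ hu 1) hχ hc I
  have e : ∀ z, χ z * dens Λ u z = χ z * fderiv ℝ (fun w => Λ (u w) (fderiv ℝ u w I)) z 1 -
      χ z * fderiv ℝ (fun w => Λ (u w) (fderiv ℝ u w 1)) z I := fun z => by
    rw [← Pool.Agent.Lib.MP_ccffa6_gt.dens_eq (hΛ.differentiable (by simp) _)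
      (hu.contDiffAt.of_le (by norm_cast)), mul_sub]
    rfl
  simp only [e, px, py]
  rw [integral_sub a2 b2, integral_sub b1 a1, a3, b3]
  ring

theorem Path.tame_bound (h : Path Λ J K) {S : Set (ℝ × E)} (hS : IsCompact S) :
    ∃ m : ℝ, 0 < m ∧ ∀ p ∈ S, ∀ v, m * ‖v‖ ^ 2 ≤ dF Λ p.2 v (J p v) := by
  have c1 : Continuous fun q : (ℝ × E) × E => dF Λ q.1.2 q.2 (J q.1 q.2) :=
    (((Pool.Agent.Lib.MP_ccffa6_gt.contDiff_dF h.smΛ).continuous.comp
      (continuous_snd.comp continuous_fst)).clm_apply continuous_snd).clm_apply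
      ((h.smJ.continuous.comp continuous_fst).clm_apply continuous_snd)
  obtain ⟨m, hm, h1⟩ := (hS.prod (isCompact_sphere (0 : E) 1)).exists_forall_le' c1.continuousOn
    (a := 0) fun q hq => h.tame q.1 q.2 (ne_zero_of_mem_unit_sphere ⟨q.2, hq.2⟩)
  refine ⟨m, hm, fun p hp v => ?_⟩
  rcases eq_or_ne v 0 with rfl | hv
  · simp
  · have n := norm_pos_iff.2 hv
    have a := h1 (p, ‖v‖⁻¹ • v) ⟨hp, mem_sphere_zero_iff_norm.2 (norm_smul_inv_norm hv)⟩
    simp only [map_smul, smul_apply, smul_eq_mul] at a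
    rw [← mul_assoc, ← mul_inv, le_inv_mul_iff₀ (mul_pos n n)] at a
    linarith

theorem Path.energy (h : Path Λ J K) (T M ρ : ℝ) : ∃ C : ℝ, ∀ t c u, |t| ≤ T → ‖c‖ ≤ M →
    Leaf (fun x => J (t, x)) u c → ∫ z in ball (0 : ℂ) ρ, ‖px u z‖ ^ 2 ≤ C := by
  obtain ⟨R, hR, hK⟩ := exists_rad h.cpt
  obtain ⟨r, r1, r2, r3⟩ : ∃ r : ℝ, ρ ≤ r ∧ 4 * R < r ∧ 1 ≤ r := ⟨max ρ (4 * R) + 1,
    by linarith [le_max_left ρ (4 * R)], by linarith [le_max_right ρ (4 * R)],
    by linarith [le_max_right ρ (4 * R)]⟩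
  let χ : ContDiffBump (0 : ℂ) := ⟨r, r + 1, by linarith, by linarith⟩
  have hB := isCompact_closedBall (0 : E) (r + 1 + M + (6 * R + 2 * M))
  obtain ⟨m, hm, h1⟩ := h.tame_bound ((isCompact_Icc (a := -T) (b := T)).prod hB)
  obtain ⟨L, hL⟩ := hB.exists_bound_of_continuousOn h.smΛ.continuous.continuousOn
  have χs : ContDiff ℝ ∞ χ := χ.contDiff
  refine ⟨m⁻¹ * ∫ z, ‖fderiv ℝ χ z‖ * (2 * (L * (1 + 4 * ((6 * R + 2 * M) * (2 * R))))),
    fun t c u ht hc hu => ?_⟩
  obtain ⟨-, t2, -, t4⟩ := hu.tail hR fun x hx => h.farJ (t, x) (hK x hx)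
  have c0 := norm_nonneg c
  have ub : ∀ z ∈ closedBall (0 : ℂ) (r + 1), u z ∈ closedBall 0 (r + 1 + M + (6 * R + 2 * M)) :=
    fun z hz => by
      rw [mem_closedBall_zero_iff] at hz ⊢
      have a1 : ‖((z, c) : E)‖ ≤ r + 1 + M := max_le (by linarith) (by linarith)
      linarith [norm_le_norm_add_norm_sub' (u z) (z, c), t2 z]
  have de : ∀ z, dens Λ u z = dF Λ (u z) (px u z) (J (t, u z) (px u z)) := fun z => by
    rw [dens, (hu.hol z trivial).1]
  have dc : Continuous (dens Λ u) := continuous_iff_continuousAt.2 fun z =>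
    Pool.Agent.Lib.MP_ccffa6_gt.continuousAt_dens (h.smΛ.contDiffAt.of_le (by norm_cast))
      (hu.sm.contDiffAt.of_le (by norm_cast))
  have i1 : Integrable fun z => χ z * dens Λ u z :=
    (χ.continuous.mul dc).integrable_of_hasCompactSupport χ.hasCompactSupport.mul_right
  have pc : Continuous fun z => ‖px u z‖ ^ 2 :=
    ((hu.sm.continuous_fderiv (by simp)).clm_apply continuous_const).norm.pow 2
  rw [le_inv_mul_iff₀ hm, ← integral_const_mul]
  calc _ ≤ ∫ z in ball (0 : ℂ) ρ, χ z * dens Λ u z := by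
        refine setIntegral_mono_on (((continuous_const.mul pc).continuousOn.integrableOn_compact
          (isCompact_closedBall 0 ρ)).mono_set ball_subset_closedBall) i1.integrableOn
          measurableSet_ball fun z hz => ?_
        have hz' := ball_subset_closedBall.trans (closedBall_subset_closedBall r1) hz
        rw [χ.one_of_mem_closedBall hz', one_mul, de]
        exact h1 (t, u z) ⟨abs_le.1 ht, ub z (closedBall_subset_closedBall (by linarith) hz')⟩ _
    _ ≤ ∫ z, χ z * dens Λ u z := by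
        refine setIntegral_le_integral i1 (Eventually.of_forall fun z => mul_nonneg χ.nonneg ?_)
        rw [de]
        rcases eq_or_ne (px u z) 0 with e | e
        · simp [e]
        · exact (h.tame (t, u z) _ e).le
    _ ≤ _ := by
        rw [dens_cut h.smΛ hu.sm χs χ.hasCompactSupport]
        refine integral_mono ((enP_parts (enP_sm h.smΛ hu.sm 1) χs χ.hasCompactSupport I).1.sub
          (enP_parts (enP_sm h.smΛ hu.sm I) χs χ.hasCompactSupport 1).1)
          (((χs.continuous_fderiv (by simp)).norm.mul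
            continuous_const).integrable_of_hasCompactSupport
            (χ.hasCompactSupport.fderiv ℝ).norm.mul_right) fun z => ?_
        by_cases e : fderiv ℝ χ z = 0
        · simp [px, py, e]
        have z1 : z ∈ closedBall (0 : ℂ) (r + 1) :=
          χ.tsupport_eq ▸ support_fderiv_subset ℝ (Function.mem_support.2 e)
        have z2 : r ≤ ‖z‖ := not_lt.1 fun q => e (by
          rw [(χ.eventuallyEq_one_of_mem_ball (mem_ball_zero_iff.2 q)).fderiv_eq]
          exact fderiv_const_apply 1)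
        have a1 : ‖fderiv ℝ u z‖ ≤ 1 + 4 * ((6 * R + 2 * M) * (2 * R)) := by
          have b1 := (t4 z (r2.trans_le z2)).trans (div_le_self (by positivity)
            (one_le_pow₀ (r3.trans z2)))
          have b2 := norm_le_norm_add_norm_sub' (fderiv ℝ u z) (ContinuousLinearMap.inl ℝ ℂ ℂ)
          have b3 := ContinuousLinearMap.norm_inl_le_one ℝ ℂ ℂ
          nlinarith
        have a2 : ∀ a b : ℂ, ‖a‖ = 1 → ‖b‖ = 1 → |fderiv ℝ χ z a * Λ (u z) (fderiv ℝ u z b)| ≤
            ‖fderiv ℝ χ z‖ * (L * (1 + 4 * ((6 * R + 2 * M) * (2 * R)))) := fun a b ha hb => by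
          have b0 := hL _ (ub z z1)
          have b1 := (fderiv ℝ χ z).le_opNorm a
          have b2 := (fderiv ℝ u z).le_opNorm b
          rw [ha, mul_one] at b1
          rw [hb, mul_one] at b2
          rw [abs_mul]
          exact mul_le_mul b1 (((Λ (u z)).le_opNorm _).trans (mul_le_mul b0 (b2.trans a1)
            (norm_nonneg _) ((norm_nonneg _).trans b0))) (abs_nonneg _) (norm_nonneg _)
        have a3 := abs_le.1 (a2 I 1 norm_I norm_one)
        have a4 := abs_le.1 (a2 1 I norm_one norm_I)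
        simp only [px, py]
        linarith [a3.2, a4.1]

end Pool.Agent.Lib.MP_7ed551_gt.Cy
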