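import Pool.Agent.Lib.MP_7ed551_gt.Cy.P.Bub
import Pool.Agent.Lib.MP_ccffa6_gt.T.EMain

/-! The gradient bound. -/

open scoped ContDiff Topology
open Set Filter Metric Complex MeasureTheory

noncomputable section

namespace Pool.Agent.Lib.MP_7ed551_gt.Cy

open Pool.Agent.Lib.MP_ccffa6_gt (Form1 dF px py JHol dens)

variable {Λ : Form1 E} {J : ℝ × E → E →L[ℝ] E} {K : Set E}

theorem eaa_path (hJ : ContDiff ℝ ∞ J) {t : ℕ → ℝ} {t₀ : ℝ} (ht : Tendsto t atTop (𝓝 t₀))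
    {u : ℕ → ℂ → E} (hu : ∀ n, ContDiff ℝ ∞ (u n))
    (hol : ∀ n, JHol (fun x => J (t n, x)) (u n) univ)
    (hb : ∀ ρ : ℝ, ∃ C : ℝ, ∀ᶠ n in atTop, ∀ z, ‖z‖ ≤ ρ → ‖u n z‖ ≤ C ∧ ‖fderiv ℝ (u n) z‖ ≤ C) :
    ∃ (φ : ℕ → ℕ) (v : ℂ → E), StrictMono φ ∧ ContDiff ℝ ∞ v ∧
      JHol (fun x => J (t₀, x)) v univ ∧ TendstoLocallyUniformly (fun n => u (φ n)) v atTop ∧
      TendstoLocallyUniformly (fun n => fderiv ℝ (u (φ n))) (fderiv ℝ v) atTop := by
  have d : ∀ n z, fderiv ℝ (fun z => (t n, u n z)) z = (0 : ℂ →L[ℝ] ℝ).prod (fderiv ℝ (u n) z) :=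
    fun n z => ((hasFDerivAt_const (t n) z).prodMk
      ((hu n).differentiable (by simp) z).hasFDerivAt).fderiv
  obtain ⟨φ, W, hφ, sW, hW, l0, l1⟩ := Pool.Agent.Lib.MP_ccffa6_gt.t_eaa (ℝ × E)
    (fun p => (ContinuousLinearMap.inr ℝ ℝ E).comp ((J p).comp (ContinuousLinearMap.snd ℝ ℝ E)))
    (fun n z => (t n, u n z)) (fun _ => univ) univ
    (contDiff_const.clm_comp (hJ.clm_comp contDiff_const)) isOpen_univ (fun _ => isOpen_univ)
    (fun n => (contDiff_const.prodMk (hu n)).contDiffOn)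
    (fun n z hz => by
      simp only [px, py, d]
      exact ⟨Prod.ext rfl (hol n z hz).1, Prod.ext (by simp) (hol n z hz).2⟩)
    fun K hK _ => by
      obtain ⟨ρ, hρ⟩ := hK.isBounded.exists_norm_le
      obtain ⟨C, hC⟩ := hb ρ
      refine ⟨max (‖t₀‖ + 1) C, ?_⟩
      filter_upwards [hC, ht.norm.eventually_le_const (lt_add_one _)] with n h1 h2
      refine ⟨subset_univ _, fun z hz => ⟨max_le_max h2 (h1 z (hρ z hz)).1, ?_⟩⟩
      rw [d, ContinuousLinearMap.opNorm_prod]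
      exact max_le_max (norm_zero.trans_le (by positivity)) (h1 z (hρ z hz)).2
  rw [contDiffOn_univ] at sW
  rw [tendstoLocallyUniformlyOn_univ] at l0 l1
  have e : ∀ z, W z = (t₀, (W z).2) := fun z => Prod.ext (tendsto_nhds_unique
    (l0.tendstoLocallyUniformlyOn.tendsto_at (mem_univ z)).fst_nhds (ht.comp hφ.tendsto_atTop)) rfl
  have d' : fderiv ℝ (fun z => (W z).2) = fun z =>
      (ContinuousLinearMap.snd ℝ ℝ E).comp (fderiv ℝ W z) :=
    funext fun z => (sW.differentiable (by simp) z).hasFDerivAt.snd.fderiv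
  refine ⟨φ, fun z => (W z).2, hφ, sW.snd, fun z hz => ?_,
    uniformContinuous_snd.comp_tendstoLocallyUniformly l0, ?_⟩
  · simp only [px, py, d', ← e]
    exact ⟨congrArg Prod.snd (hW z hz).1, congrArg Prod.snd (hW z hz).2⟩
  · have := (ContinuousLinearMap.compL ℝ ℂ (ℝ × E) E
      (ContinuousLinearMap.snd ℝ ℝ E)).uniformContinuous.comp_tendstoLocallyUniformly l1
    simp only [Function.comp_def, d, ContinuousLinearMap.compL_apply,
      ContinuousLinearMap.snd_comp_prod] at this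
    rwa [d']

theorem gradP_resc {u : ℂ → E} (hu : ContDiff ℝ ∞ u) {ζ : ℂ} {n S : ℝ} (hn : 0 ≤ n)
    (h : n < ‖fderiv ℝ u ζ‖) (hS : ‖ζ‖ + 3 ≤ S) : ∃ v : ℂ → E, ContDiff ℝ ∞ v ∧
      (∀ J', JHol J' u univ → JHol J' v univ) ∧ ‖fderiv ℝ v 0‖ = 1 ∧
      (∀ z, ‖z‖ ≤ n → ‖fderiv ℝ v z‖ ≤ 2 ∧ ∃ w, ‖w‖ < S ∧ v z = u w) ∧
      ∀ ρ ≤ n, ∫ z in ball (0 : ℂ) ρ, ‖px v z‖ ^ 2 ≤ ∫ z in ball (0 : ℂ) S, ‖px u z‖ ^ 2 := by
  have cu := hu.continuous_fderiv (by simp)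
  obtain ⟨ε, -, x, a1, a2, a3, a4⟩ := hofer ζ 1 one_pos cu.norm fun _ => norm_nonneg _
  obtain ⟨G, hG⟩ : ∃ G, ‖fderiv ℝ u x‖ = G := ⟨_, rfl⟩
  simp only [hG, one_mul, mul_one] at a2 a3 a4
  have G0 : 0 < G := by
    have := hG ▸ norm_nonneg (fderiv ℝ u x)
    nlinarith
  have d : ∀ z, fderiv ℝ (fun z => u (x + G⁻¹ • z)) z = G⁻¹ • fderiv ℝ u (x + G⁻¹ • z) :=
    fun z => ((hu.differentiable (by simp) _).hasFDerivAt.comp z
      (((hasFDerivAt_id z).const_smul G⁻¹).const_add x)).fderiv.trans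
      (ContinuousLinearMap.ext fun w => by simp [← map_smul])
  have nm : ∀ z : ℂ, ‖z‖ ≤ n → ‖G⁻¹ • z‖ < ε := fun z hz => by
    rw [norm_smul, norm_inv, Real.norm_of_nonneg G0.le, inv_mul_lt_iff₀ G0]
    linarith
  have bd : ∀ z : ℂ, ‖z‖ ≤ n → ‖x + G⁻¹ • z‖ < S := fun z hz => by
    rw [dist_eq_norm] at a2
    linarith [norm_add_le x (G⁻¹ • z), nm z hz, norm_sub_norm_le x ζ]
  refine ⟨fun z => u (x + G⁻¹ • z), hu.comp (by fun_prop), fun J' hJ z _ => ?_, ?_,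
    fun z hz => ⟨?_, _, bd z hz, rfl⟩, fun ρ hρ => ?_⟩
  · have := hJ (x + G⁻¹ • z) trivial
    simp only [px, py, d, smul_apply, map_smul] at this ⊢
    exact ⟨congrArg _ this.1, (congrArg _ this.2).trans (smul_neg _ _)⟩
  · rw [d, smul_zero, add_zero, norm_smul, hG, norm_inv, Real.norm_of_nonneg G0.le,
      inv_mul_cancel₀ G0.ne']
  · rw [d, norm_smul, norm_inv, Real.norm_of_nonneg G0.le, inv_mul_le_iff₀ G0, mul_comm]
    exact a4 _ (by rw [dist_self_add_right]; exact (nm z hz).le)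
  · have cf : Continuous fun z => ‖px u z‖ ^ 2 := (cu.clm_apply continuous_const).norm.pow 2
    have i1 : Integrable ((ball (0 : ℂ) S).indicator fun z => ‖px u z‖ ^ 2) :=
      ((cf.continuousOn.integrableOn_compact (isCompact_closedBall 0 S)).mono_set
        ball_subset_closedBall).integrable_indicator measurableSet_ball
    have i2 := ((i1.comp_add_left x).comp_smul (inv_ne_zero G0.ne')).const_mul (G⁻¹ ^ 2)
    rw [setIntegral_congr_fun measurableSet_ball (g := fun z => G⁻¹ ^ 2 *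
      (ball (0 : ℂ) S).indicator (fun z => ‖px u z‖ ^ 2) (x + G⁻¹ • z)) fun z hz => by
        simp only [px, d, smul_apply]
        rw [indicator_of_mem (mem_ball_zero_iff.2 (bd z ((mem_ball_zero_iff.1 hz).le.trans hρ))),
          norm_smul, mul_pow, Real.norm_eq_abs, sq_abs]]
    refine (setIntegral_le_integral i2 (Eventually.of_forall fun z => mul_nonneg (sq_nonneg _)
      (indicator_nonneg (fun _ _ => sq_nonneg _) _))).trans_eq ?_
    rw [integral_const_mul, Measure.integral_comp_smul volume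
      (fun z => (ball (0 : ℂ) S).indicator (fun z => ‖px u z‖ ^ 2) (x + z)),
      integral_add_left_eq_self, integral_indicator measurableSet_ball, finrank_real_complex,
      abs_of_nonneg (by positivity), smul_eq_mul, mul_inv_cancel_left₀ (by positivity)]

theorem Path.grad (h : Path Λ J K) (T M : ℝ) : ∃ G : ℝ, ∀ t c u, |t| ≤ T → ‖c‖ ≤ M →
    Leaf (fun x => J (t, x)) u c → ∀ ζ, ‖fderiv ℝ u ζ‖ ≤ G := by
  by_contra hn
  push Not at hn
  obtain ⟨R, R0, hR⟩ := exists_rad h.cpt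
  obtain ⟨C, hC⟩ := h.energy T M (4 * R + 3)
  have key : ∀ n : ℕ, ∃ (t : ℝ) (v : ℂ → E), t ∈ Icc (-T) T ∧ ContDiff ℝ ∞ v ∧
      JHol (fun x => J (t, x)) v univ ∧ ‖fderiv ℝ v 0‖ = 1 ∧
      (∀ z, ‖z‖ ≤ n → ‖v z‖ ≤ 10 * R + 3 * M + 3 ∧ ‖fderiv ℝ v z‖ ≤ 2) ∧
      ∀ ρ : ℝ, ρ ≤ n → ∫ z in ball (0 : ℂ) ρ, ‖px v z‖ ^ 2 ≤ C := fun n => by
    obtain ⟨t, c, u, ht, hc, hu, ζ, hζ⟩ := hn (n + (1 + 4 * ((6 * R + 2 * M) * (2 * R)) / (4 * R) ^ 2))
    obtain ⟨-, b1, -, b2⟩ := hu.tail R0 fun x hx => h.farJ (t, x) (hR x hx)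
    have M0 := (norm_nonneg c).trans hc
    have n0 : (0 : ℝ) ≤ n := n.cast_nonneg
    have b3 : ‖ζ‖ ≤ 4 * R := le_of_not_gt fun h' => by
      have h1 : 4 * ((6 * R + 2 * ‖c‖) * (2 * R)) / ‖ζ‖ ^ 2 ≤
        4 * ((6 * R + 2 * M) * (2 * R)) / (4 * R) ^ 2 := by gcongr
      linarith [b2 ζ h', norm_sub_norm_le (fderiv ℝ u ζ) (ContinuousLinearMap.inl ℝ ℂ ℂ),
        ContinuousLinearMap.norm_inl_le_one ℝ ℂ ℂ]
    obtain ⟨v, c1, c2, c3, c4, c5⟩ := gradP_resc hu.sm n0 (S := 4 * R + 3)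
      ((le_add_of_nonneg_right (by positivity)).trans_lt hζ) (by linarith)
    refine ⟨t, v, abs_le.1 ht, c1, c2 _ hu.hol, c3, fun z hz => ⟨?_, (c4 z hz).1⟩,
      fun ρ hρ => (c5 ρ hρ).trans (hC t c u ht hc hu)⟩
    obtain ⟨w, h1, h2⟩ := (c4 z hz).2
    have h3 : ‖((w, c) : E)‖ ≤ ‖w‖ + ‖c‖ :=
      max_le_add_of_nonneg (norm_nonneg _) (norm_nonneg _)
    rw [h2]
    linarith [b1 w, norm_sub_norm_le (u w) (w, c)]
  choose t v k1 k2 k3 k4 k5 k6 using key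
  obtain ⟨t₀, -, ψ, hψ, lt⟩ := isCompact_Icc.tendsto_subseq k1
  obtain ⟨φ, V, hφ, sV, hV, l0, l1⟩ := eaa_path h.smJ lt (fun n => k2 (ψ n)) (fun n => k3 (ψ n))
    fun ρ => ⟨max (10 * R + 3 * M + 3) 2, ((tendsto_natCast_atTop_atTop.comp
      hψ.tendsto_atTop).eventually_ge_atTop ρ).mono fun n h1 z hz =>
        ⟨le_max_of_le_left (k5 _ z (hz.trans h1)).1, le_max_of_le_right (k5 _ z (hz.trans h1)).2⟩⟩
  have ev := fun ρ : ℝ => (tendsto_natCast_atTop_atTop.comp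
    (hψ.comp hφ).tendsto_atTop).eventually_ge_atTop ρ
  have p0 := fun z => l0.tendstoLocallyUniformlyOn.tendsto_at (mem_univ z)
  have p1 := fun z => l1.tendstoLocallyUniformlyOn.tendsto_at (mem_univ z)
  have z0 := h.bubble sV hV (C := C)
    (fun z => le_of_tendsto (p0 z).norm ((ev ‖z‖).mono fun n h1 => (k5 _ z h1).1)) (fun ρ => by
      have : IsFiniteMeasure (volume.restrict (ball (0 : ℂ) ρ)) :=
        isFiniteMeasure_restrict.2 measure_ball_lt_top.ne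
      refine le_of_tendsto (tendsto_integral_filter_of_dominated_convergence (fun _ => 2 ^ 2)
        (Eventually.of_forall fun n => ((((k2 (ψ (φ n))).continuous_fderiv (by simp)).clm_apply
          continuous_const).norm.pow 2).aestronglyMeasurable)
        ((ev ρ).mono fun n h1 => ae_restrict_of_forall_mem measurableSet_ball fun z hz => ?_)
        (integrable_const _) (Eventually.of_forall fun z => (((ContinuousLinearMap.apply ℝ E
          (1 : ℂ)).continuous.tendsto _).comp (p1 z)).norm.pow 2)) ((ev ρ).mono fun n h1 => k6 _ ρ h1)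
      rw [Pi.pow_apply, norm_pow, norm_norm]
      exact pow_le_pow_left₀ (norm_nonneg _) ((Pool.Agent.Lib.MP_ccffa6_gt.norm_px_le _ z).trans
        (k5 _ z ((mem_ball_zero_iff.1 hz).le.trans h1)).2) 2) 0
  have e1 := Pool.Agent.Lib.MP_ccffa6_gt.norm_fderiv_le_px_py V 0
  have e2 := (p1 0).norm
  simp only [k4] at e2
  rw [(hV 0 trivial).1, z0, map_zero, ← tendsto_nhds_unique tendsto_const_nhds e2] at e1
  norm_num at e1

end Pool.Agent.Lib.MP_7ed551_gt.Cy
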